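import Pool.Agent.H50.NC.Targets

/-!
# Row SDX: existence of sides
-/

set_option autoImplicit false

namespace Pool.Agent.H34.NCK

open Pool.Agent.H48.ER Pool.Agent.H50.NC

theorem pf_SDX : T_SDX := by
  intro V G a b n P i hP
  obtain ⟨hpr, hev⟩ := hP
  have hP' : EPr G a b n P := ⟨hpr, hev⟩
  obtain ⟨g, g0, gn, gi, ga, hR⟩ := hpr.ip i
  have hn : 2 ≤ n i := by
    have h1 := hpr.pos i
    obtain ⟨k, hk⟩ := hev i
    omega
  let B : Set V := {v | v ∉ Xr P i ∧ ∀ w ∈ Xr P i, ¬ G.Adj v w}
  let r : V → V → Prop := fun u w => G.Adj u w ∧ w ∈ B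
  have hint : ∀ v ∈ P i, v ≠ a i → v ≠ b i → v ∈ B := by
    intro v hv h1 h2
    refine ⟨?_, ?_⟩
    · rintro ⟨j, hj, hvj⟩
      exact hj (hpr.rung hvj hv)
    · rintro w ⟨j, hj, hwj⟩ hadj
      rcases (hpr.adj i j (Ne.symm hj) v hv w hwj).1 hadj with h | h
      · exact h1 h.1
      · exact h2 h.1
  have hgint : ∀ k, 1 ≤ k → k < n i → g k ∈ B := by
    intro k h1 h2
    refine hint (g k) (by rw [hR]; exact ⟨k, h2.le, rfl⟩) ?_ ?_
    · intro h
      have := gi k 0 h2.le (Nat.zero_le _) (h.trans g0.symm)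
      omega
    · intro h
      have := gi k (n i) h2.le le_rfl (h.trans gn.symm)
      omega
  have hSB : ∀ v, Relation.ReflTransGen r (g 1) v → v ∈ B := by
    intro v hv
    induction hv with
    | refl => exact hgint 1 le_rfl (by omega)
    | tail _ h _ => exact h.2
  refine ⟨{v | Relation.ReflTransGen r (g 1) v}, hP', ?_, ?_, ?_, ?_⟩
  · intro X hX hne hcl
    obtain ⟨x, hx⟩ := hne
    have h0 : ∀ y, Relation.ReflTransGen r (g 1) y → y ∈ X → g 1 ∈ X := by
      intro y hy
      induction hy with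
      | refl => exact fun h => h
      | tail h1 h2 ih => exact fun h => ih (hcl _ h _ h1 h2.1.symm)
    have h1 : g 1 ∈ X := h0 x (hX hx) hx
    refine Set.Subset.antisymm hX ?_
    intro s hs
    have h2 : ∀ y, Relation.ReflTransGen r (g 1) y → y ∈ X := by
      intro y hy
      induction hy with
      | refl => exact h1
      | tail h3 h4 ih => exact hcl _ ih _ (h3.tail h4) h4.1
    exact h2 s hs
  · intro v hv h1 h2
    rw [hR] at hv
    obtain ⟨k, hk, rfl⟩ := hv
    have hk0 : k ≠ 0 := fun h => h1 (by rw [h, g0])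
    have hkn : k ≠ n i := fun h => h2 (by rw [h, gn])
    have h3 : ∀ k, 1 ≤ k → k < n i → Relation.ReflTransGen r (g 1) (g k) := by
      intro k h4
      induction k, h4 using Nat.le_induction with
      | base => exact fun _ => Relation.ReflTransGen.refl
      | succ k h4 ih =>
        intro h5
        refine (ih (by omega)).tail ⟨?_, hgint (k + 1) (by omega) h5⟩
        rw [ga k (k + 1) (by omega) (by omega)]
        exact Or.inl rfl
    exact h3 k (by omega) (by omega)
  · intro s hs v hv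
    have hsB := hSB s hs
    exact ⟨fun h => hsB.1 (h ▸ hv), hsB.2 v hv⟩
  · intro s hs v hv hadj
    by_contra hno
    have h1 : ∀ w ∈ Xr P i, ¬ G.Adj v w := fun w hw h => hno ⟨w, hw, h⟩
    have h2 : v ∉ Xr P i := fun h => (hSB s hs).2 v h hadj
    exact hv (Relation.ReflTransGen.tail hs ⟨hadj, h2, h1⟩)

end Pool.Agent.H34.NCK
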