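import Pool.Agent.H50.NC.Targets

/-!
# Row SVX: a vertex outside of an even prism with an attachment at odd distance
-/

set_option autoImplicit false

namespace Pool.Agent.H34.NCK

open Pool.Agent.H48.ER Pool.Agent.H50.NC

variable {V : Type}

/-- a segment of a path -/
def Sg (g : ℕ → V) (s t : ℕ) : Set V := {v | ∃ q, s ≤ q ∧ q ≤ t ∧ g q = v}

theorem Sg_ip {G : SimpleGraph V} {g : ℕ → V} {N : ℕ}
    (gi : ∀ p q, p ≤ N → q ≤ N → g p = g q → p = q)
    (ga : ∀ p q, p ≤ N → q ≤ N → (G.Adj (g p) (g q) ↔ p + 1 = q ∨ q + 1 = p)) {s t : ℕ}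
    (h1 : s ≤ t) (h2 : t ≤ N) : IP G (t - s) (g s) (g t) (Sg g s t) := by
  refine ⟨fun q => g (s + q), rfl, ?_, ?_, ?_, ?_⟩
  · show g (s + (t - s)) = g t
    congr 1
    omega
  · intro p q hp hq e
    have := gi (s + p) (s + q) (by omega) (by omega) e
    omega
  · intro p q hp hq
    show G.Adj (g (s + p)) (g (s + q)) ↔ _
    rw [ga (s + p) (s + q) (by omega) (by omega)]
    omega
  · ext v
    constructor
    · rintro ⟨q, h3, h4, rfl⟩
      exact ⟨q - s, by omega, by
        show g (s + (q - s)) = g q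
        congr 1
        omega⟩
    · rintro ⟨q, h3, rfl⟩
      exact ⟨s + q, by omega, by omega, rfl⟩

/-- the paths of a prism as functions -/
structure PF (G : SimpleGraph V) (a b : Fin 3 → V) (n : Fin 3 → ℕ) (P : Fin 3 → Set V)
    (g : Fin 3 → ℕ → V) : Prop where
  g0 : ∀ t, g t 0 = a t
  gn : ∀ t, g t (n t) = b t
  gi : ∀ t p q, p ≤ n t → q ≤ n t → g t p = g t q → p = q
  ga : ∀ t p q, p ≤ n t → q ≤ n t → (G.Adj (g t p) (g t q) ↔ p + 1 = q ∨ q + 1 = p)
  hR : ∀ t, P t = {v | ∃ q, q ≤ n t ∧ g t q = v}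
  dj : ∀ s t, s ≠ t → ∀ p q, p ≤ n s → q ≤ n t → g s p ≠ g t q
  cr : ∀ s t, s ≠ t → ∀ p q, p ≤ n s → q ≤ n t →
    (G.Adj (g s p) (g t q) ↔ (p = 0 ∧ q = 0) ∨ (p = n s ∧ q = n t))

theorem exists_PF {G : SimpleGraph V} {a b : Fin 3 → V} {n : Fin 3 → ℕ} {P : Fin 3 → Set V}
    (h : Prism G a b n P) : ∃ g, PF G a b n P g := by
  choose g g0 gn gi ga hR using h.ip
  have hm : ∀ t q, q ≤ n t → g t q ∈ P t := fun t q hq => by rw [hR]; exact ⟨q, hq, rfl⟩
  refine ⟨g, g0, gn, gi, ga, hR, ?_, ?_⟩
  · intro s t hst p q hp hq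
    exact h.ne_of_mem hst (hm s p hp) (hm t q hq)
  · intro s t hst p q hp hq
    rw [h.adj s t hst _ (hm s p hp) _ (hm t q hq)]
    constructor
    · rintro (⟨h1, h2⟩ | ⟨h1, h2⟩)
      · exact Or.inl ⟨gi s p 0 hp (Nat.zero_le _) (h1.trans (g0 s).symm),
          gi t q 0 hq (Nat.zero_le _) (h2.trans (g0 t).symm)⟩
      · exact Or.inr ⟨gi s p (n s) hp le_rfl (h1.trans (gn s).symm),
          gi t q (n t) hq le_rfl (h2.trans (gn t).symm)⟩
    · rintro (⟨rfl, rfl⟩ | ⟨rfl, rfl⟩)
      · exact Or.inl ⟨g0 s, g0 t⟩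
      · exact Or.inr ⟨gn s, gn t⟩

section

variable {G : SimpleGraph V} {a b : Fin 3 → V} {n : Fin 3 → ℕ} {P : Fin 3 → Set V}
  {g : Fin 3 → ℕ → V}

theorem PF.mem (h : PF G a b n P g) (t : Fin 3) {q : ℕ} (hq : q ≤ n t) : g t q ∈ P t := by
  rw [h.hR]
  exact ⟨q, hq, rfl⟩

theorem PF.seg (h : PF G a b n P g) (t : Fin 3) {p q : ℕ} (h1 : p ≤ q) (h2 : q ≤ n t) :
    IP G (q - p) (g t p) (g t q) (Sg (g t) p q) := Sg_ip (h.gi t) (h.ga t) h1 h2

theorem PF.disj (h : PF G a b n P g) {s t : Fin 3} (hst : s ≠ t) {p p' q q' : ℕ}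
    (h1 : p' ≤ n s) (h2 : q' ≤ n t) : Disjoint (Sg (g s) p p') (Sg (g t) q q') := by
  rw [Set.disjoint_left]
  rintro v ⟨m, hm1, hm2, rfl⟩ ⟨m', hm1', hm2', e⟩
  exact h.dj t s (Ne.symm hst) m' m (by omega) (by omega) e

/-- edges between the upper parts of two paths -/
theorem PF.top (h : PF G a b n P g) {s t : Fin 3} (hst : s ≠ t) {p q : ℕ}
    (h1 : 1 ≤ p ∨ 1 ≤ q) : XE G (Sg (g s) p (n s)) (Sg (g t) q (n t)) (g s (n s)) (g t (n t)) := by
  rintro _ ⟨m, hm1, hm2, rfl⟩ _ ⟨m', hm1', hm2', rfl⟩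
  rw [h.cr s t hst m m' hm2 hm2']
  constructor
  · rintro (⟨e1, e2⟩ | ⟨e1, e2⟩)
    · omega
    · rw [e1, e2]
      exact ⟨rfl, rfl⟩
  · rintro ⟨e1, e2⟩
    exact Or.inr ⟨h.gi s _ _ hm2 le_rfl e1, h.gi t _ _ hm2' le_rfl e2⟩

/-- edges between the lower parts of two paths -/
theorem PF.bot (h : PF G a b n P g) {s t : Fin 3} (hst : s ≠ t) {p q : ℕ} (hp : p ≤ n s)
    (hq : q ≤ n t) (h1 : p < n s ∨ q < n t) :
    XE G (Sg (g s) 0 p) (Sg (g t) 0 q) (g s 0) (g t 0) := by
  rintro _ ⟨m, hm1, hm2, rfl⟩ _ ⟨m', hm1', hm2', rfl⟩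
  rw [h.cr s t hst m m' (by omega) (by omega)]
  constructor
  · rintro (⟨e1, e2⟩ | ⟨e1, e2⟩)
    · rw [e1, e2]
      exact ⟨rfl, rfl⟩
    · omega
  · rintro ⟨e1, e2⟩
    exact Or.inl ⟨h.gi s _ _ (by omega) (Nat.zero_le _) e1,
      h.gi t _ _ (by omega) (Nat.zero_le _) e2⟩

end

theorem last_nb {N : ℕ} {Q : ℕ → Prop} {m : ℕ} (hm : m ≤ N) (hQ : Q m) :
    ∃ l, m ≤ l ∧ l ≤ N ∧ Q l ∧ ∀ t, l < t → t ≤ N → ¬ Q t := by
  classical
  exact ⟨Nat.findGreatest Q N, Nat.le_findGreatest hm hQ, Nat.findGreatest_le N,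
    Nat.findGreatest_spec hm hQ, fun t h1 h2 => Nat.findGreatest_is_greatest h1 h2⟩

theorem first_nb {Q : ℕ → Prop} {m : ℕ} (hQ : Q m) :
    ∃ l, l ≤ m ∧ Q l ∧ ∀ t, t < l → ¬ Q t := by
  classical
  have h : ∃ m, Q m := ⟨m, hQ⟩
  exact ⟨Nat.find h, Nat.find_min' h hQ, Nat.find_spec h, fun t h1 => Nat.find_min h h1⟩

/-- a path in a rung which starts at its end -/
theorem init_path {G : SimpleGraph V} {u : ℕ → V} {N r : ℕ} {x y : V} {R P : Set V}
    (_gi : ∀ p q, p ≤ N → q ≤ N → u p = u q → p = q)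
    (ga : ∀ p q, p ≤ N → q ≤ N → (G.Adj (u p) (u q) ↔ p + 1 = q ∨ q + 1 = p))
    (hP : P = {v | ∃ q, q ≤ N ∧ u q = v}) (h : IP G r x y R) (hx : x = u 0) (hR : R ⊆ P) :
    r ≤ N ∧ y = u r ∧ R = Sg u 0 r := by
  obtain ⟨k, k0, kn, ki, ka, hk⟩ := h
  have hkR : ∀ t, t ≤ r → ∃ q, q ≤ N ∧ u q = k t := by
    intro t ht
    have h1 : k t ∈ P := hR (by rw [hk]; exact ⟨t, ht, rfl⟩)
    rw [hP] at h1
    exact h1
  have h1 : ∀ t, t ≤ r → t ≤ N ∧ ∀ t', t' ≤ t → k t' = u t' := by
    intro t
    induction t with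
    | zero =>
      intro _
      refine ⟨Nat.zero_le _, fun t' ht' => ?_⟩
      have : t' = 0 := by omega
      rw [this, k0, hx]
    | succ t ih =>
      intro ht
      obtain ⟨h2, h3⟩ := ih (by omega)
      obtain ⟨q, hq, he⟩ := hkR (t + 1) ht
      have h4 : G.Adj (u t) (u q) := by
        rw [he, ← h3 t le_rfl, ka t (t + 1) (by omega) ht]
        exact Or.inl rfl
      rw [ga t q h2 hq] at h4
      have h5 : q = t + 1 := by
        rcases h4 with h4 | h4
        · exact h4.symm
        · exfalso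
          have h6 : k (t + 1) = k q := by rw [← he, h3 q (by omega)]
          have := ki (t + 1) q ht (by omega) h6
          omega
      subst h5
      refine ⟨hq, fun t' ht' => ?_⟩
      rcases Nat.lt_or_ge t' (t + 1) with h6 | h6
      · exact h3 t' (by omega)
      · have : t' = t + 1 := by omega
        rw [this, he]
  obtain ⟨h2, h3⟩ := h1 r le_rfl
  refine ⟨h2, by rw [← kn, h3 r le_rfl], ?_⟩
  rw [hk]
  ext v
  constructor
  · rintro ⟨t, ht, rfl⟩
    exact ⟨t, Nat.zero_le _, ht, (h3 t ht).symm⟩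
  · rintro ⟨t, _, ht, rfl⟩
    exact ⟨t, ht, h3 t ht⟩

theorem pf_SVX : T_SVX := by
  intro V G a b n P i j k r x f R hG hO hP hij hik hjk hf hRp hRP hr hfR hfj hfk
  obtain ⟨hpr, hev⟩ := hP
  obtain ⟨g, hg⟩ := exists_PF hpr
  obtain ⟨hrN, hx, hRe⟩ := init_path (hg.gi i) (hg.ga i) (hg.hR i) hRp (hg.g0 i).symm hRP
  have hni := hpr.pos i
  have hnj := hpr.pos j
  have hnk := hpr.pos k
  obtain ⟨mi, hmi⟩ := hev i
  obtain ⟨mj, hmj⟩ := hev j
  obtain ⟨mk, hmk⟩ := hev k
  obtain ⟨mr, hmr⟩ := hr
  have hfne : ∀ t q, q ≤ n t → f ≠ g t q := by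
    intro t q hq e
    exact hf ⟨t, e ▸ hg.mem t hq⟩
  have hfi : ∀ t, t ≤ r → (G.Adj f (g i t) ↔ t = r) := by
    intro t ht
    rw [hfR (g i t) (by rw [hRe]; exact ⟨t, Nat.zero_le _, ht, rfl⟩), hx]
    exact ⟨fun e => hg.gi i _ _ (by omega) hrN e, fun e => by rw [e]⟩
  rw [← hg.g0] at hfj hfk
  -- not in a segment
  have hfS : ∀ t p q, q ≤ n t → f ∉ Sg (g t) p q := by
    rintro t p q hq ⟨m, h1, h2, e⟩
    exact hfne t m (by omega) e.symm
  by_cases hK : ∃ t, t ≤ n k ∧ G.Adj f (g k t)
  · -- (1)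
    obtain ⟨t0, ht0, hK0⟩ := hK
    obtain ⟨e, he1, he2, he3⟩ := first_nb (Q := fun t => G.Adj f (g k t)) hK0
    have hen : e ≤ n k := by omega
    have he0 : 1 ≤ e := by
      rcases Nat.eq_zero_or_pos e with h | h
      · exact absurd (h ▸ he2) hfk
      · exact h
    have hA : Even (e + 1) := by
      have h1 := (hg.seg k (Nat.zero_le e) hen).rev
      have h2 : IP G (e - 0 + 1) (g k e) (g j 0) (insert (g j 0) (Sg (g k) 0 e)) := by
        refine h1.snoc ?_ ?_
        · rintro ⟨m, _, hm, e1⟩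
          exact hg.dj k j (Ne.symm hjk) m 0 (by omega) (Nat.zero_le _) e1
        · rintro _ ⟨m, _, hm, rfl⟩
          rw [hg.cr j k hjk 0 m (Nat.zero_le _) (by omega)]
          constructor
          · rintro (⟨_, h3⟩ | ⟨h3, _⟩)
            · rw [h3]
            · omega
          · intro h3
            exact Or.inl ⟨rfl, hg.gi k _ _ (by omega) (Nat.zero_le _) h3⟩
      have h3 := hG _ _ _ f _ h2 (by omega) ?_ he2 hfj ?_
      · exact h3
      · rintro (h3 | h3)
        · exact hfne j 0 (Nat.zero_le _) h3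
        · exact hfS k 0 e hen h3
      · rintro w (h3 | ⟨m, _, hm, rfl⟩) hadj
        · exact Or.inr h3
        · left
          by_contra hne
          have h4 : m < e := by
            rcases Nat.lt_or_ge m e with h | h
            · exact h
            · exact absurd (by rw [show m = e by omega]) hne
          exact he3 m h4 hadj
    have hB : Even (r + e + 1) := by
      have h1 := (hg.seg i (Nat.zero_le r) hrN).rev
      have h2 := hg.seg k (Nat.zero_le e) hen
      have h3 := h1.append h2 (hg.disj hik hrN hen)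
        (hg.bot hik hrN hen (Or.inl (by omega)))
      have h4 := hG _ _ _ f _ h3 (by omega) ?_ ?_ he2 ?_
      · simpa using h4
      · rintro (h5 | h5)
        · exact hfS i 0 r hrN h5
        · exact hfS k 0 e hen h5
      · exact (hfi r le_rfl).2 rfl
      · rintro w (⟨m, _, hm, rfl⟩ | ⟨m, _, hm, rfl⟩) hadj
        · left
          rw [(hfi m hm).1 hadj]
        · right
          by_contra hne
          have h4 : m < e := by
            rcases Nat.lt_or_ge m e with h | h
            · exact h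
            · exact absurd (by rw [show m = e by omega]) hne
          exact he3 m h4 hadj
    obtain ⟨q1, hq1⟩ := hA
    obtain ⟨q2, hq2⟩ := hB
    omega
  · -- (2)
    have hfk' : ∀ t, t ≤ n k → ¬ G.Adj f (g k t) := fun t ht h => hK ⟨t, ht, h⟩
    obtain ⟨p1, hp1, hp2, hp3, hp4⟩ := last_nb (Q := fun t => G.Adj f (g i t)) hrN
      ((hfi r le_rfl).2 rfl)
    obtain ⟨s1, hs1, hs2, hs3, hs4⟩ := last_nb (N := n j) (Q := fun t => G.Adj f (g j t))
      (Nat.zero_le _) hfj
    have hSi := hg.seg i hp2 le_rfl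
    have hSk := (hg.seg k (Nat.zero_le (n k)) le_rfl).rev
    -- neighbours of f in the last part of the rung i
    have hfSi : ∀ w ∈ Sg (g i) p1 (n i), G.Adj f w → w = g i p1 := by
      rintro _ ⟨m, hm1, hm2, rfl⟩ hadj
      rcases Nat.lt_or_ge p1 m with h | h
      · exact absurd hadj (hp4 m h hm2)
      · rw [show m = p1 by omega]
    have hfSj : ∀ w ∈ Sg (g j) s1 (n j), G.Adj f w → w = g j s1 := by
      rintro _ ⟨m, hm1, hm2, rfl⟩ hadj
      rcases Nat.lt_or_ge s1 m with h | h
      · exact absurd hadj (hs4 m h hm2)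
      · rw [show m = s1 by omega]
    have hfSk : ∀ w ∈ Sg (g k) 0 (n k), ¬ G.Adj f w := by
      rintro _ ⟨m, hm1, hm2, rfl⟩
      exact hfk' m hm2
    rcases Nat.lt_or_ge s1 1 with h0 | h0
    · -- (2a)
      have hs0 : s1 = 0 := by omega
      subst hs0
      have hC : Even ((n i - p1) + (n k - 0) + 1 + 1) := by
        have h1 := hSi.append hSk (hg.disj hik le_rfl le_rfl) (hg.top hik (Or.inl (by omega)))
        have h2 := h1.snoc (u := g j 0) ?_ ?_
        · refine hG _ _ _ f _ h2 (by omega) ?_ hp3 hfj ?_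
          · rintro (h3 | h3 | h3)
            · exact hfne j 0 (Nat.zero_le _) h3
            · exact hfS i _ _ le_rfl h3
            · exact hfS k _ _ le_rfl h3
          · rintro w (h3 | h3 | h3) hadj
            · exact Or.inr h3
            · exact Or.inl (hfSi w h3 hadj)
            · exact absurd hadj (hfSk w h3)
        · rintro (⟨m, _, hm, e1⟩ | ⟨m, _, hm, e1⟩)
          · exact hg.dj i j hij m 0 hm (Nat.zero_le _) e1
          · exact hg.dj k j (Ne.symm hjk) m 0 hm (Nat.zero_le _) e1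
        · rintro _ (⟨m, hm0, hm, rfl⟩ | ⟨m, _, hm, rfl⟩)
          · rw [hg.cr j i (Ne.symm hij) 0 m (Nat.zero_le _) hm]
            constructor
            · rintro (⟨_, h3⟩ | ⟨h3, _⟩) <;> omega
            · intro h3
              exact absurd h3 (hg.dj i k hik m 0 hm (Nat.zero_le _))
          · rw [hg.cr j k hjk 0 m (Nat.zero_le _) hm]
            constructor
            · rintro (⟨_, h3⟩ | ⟨h3, _⟩)
              · rw [h3]
              · omega
            · intro h3
              exact Or.inl ⟨rfl, hg.gi k _ _ hm (Nat.zero_le _) h3⟩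
      have hD : Even ((n i - p1) + (n j - 0) + 1) := by
        have h1 := hSi.append (hg.seg j (Nat.zero_le (n j)) le_rfl).rev
          (hg.disj hij le_rfl le_rfl) (hg.top hij (Or.inl (by omega)))
        refine hG _ _ _ f _ h1 (by omega) ?_ hp3 hfj ?_
        · rintro (h3 | h3)
          · exact hfS i _ _ le_rfl h3
          · exact hfS j _ _ le_rfl h3
        · rintro w (h3 | h3) hadj
          · exact Or.inl (hfSi w h3 hadj)
          · exact Or.inr (hfSj w h3 hadj)
      obtain ⟨q1, hq1⟩ := hC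
      obtain ⟨q2, hq2⟩ := hD
      omega
    · have hSj := hg.seg j hs2 le_rfl
      rcases Nat.lt_or_ge s1 2 with h2' | h2'
      · -- (2c)
        have hs0 : s1 = 1 := by omega
        subst hs0
        have r1 : IP G (n i - p1 + 1) f (g i (n i)) (insert f (Sg (g i) p1 (n i))) := by
          refine hSi.cons (hfS i _ _ le_rfl) ?_
          intro w hw
          exact ⟨fun h => hfSi w hw h, fun h => h ▸ hp3⟩
        have r3 : IP G (n k - 0 + 1) (g j 0) (g k (n k)) (insert (g j 0) (Sg (g k) 0 (n k))) := by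
          refine hSk.rev.cons ?_ ?_
          · rintro ⟨m, _, hm, e1⟩
            exact hg.dj k j (Ne.symm hjk) m 0 hm (Nat.zero_le _) e1
          · rintro _ ⟨m, _, hm, rfl⟩
            rw [hg.cr j k hjk 0 m (Nat.zero_le _) hm]
            constructor
            · rintro (⟨_, h3⟩ | ⟨h3, _⟩)
              · rw [h3]
              · omega
            · intro h3
              exact Or.inl ⟨rfl, hg.gi k _ _ hm (Nat.zero_le _) h3⟩
        have hpm := mk3 r1 hSj r3 (by omega) (by omega) (by omega) ?_ ?_ ?_ ?_ ?_ ?_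
        · have h3 := (c_EVN V G _ _ _ _ hG hpm).2 hO 1
          obtain ⟨q, hq⟩ := h3
          have hq' : n j - 1 = q + q := hq
          omega
        · rw [Set.disjoint_left]
          rintro w (h3 | h3) h4
          · exact hfS j _ _ le_rfl (h3 ▸ h4)
          · exact Set.disjoint_left.1 (hg.disj hij le_rfl le_rfl) h3 h4
        · rw [Set.disjoint_left]
          rintro w (h3 | h3) (h4 | h4)
          · exact hfne j 0 (Nat.zero_le _) (h3.symm.trans h4)
          · exact hfS k _ _ le_rfl (h3 ▸ h4)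
          · obtain ⟨m, _, hm, e1⟩ := h3
            exact hg.dj i j hij m 0 hm (Nat.zero_le _) (e1.trans h4)
          · exact Set.disjoint_left.1 (hg.disj hik le_rfl le_rfl) h3 h4
        · rw [Set.disjoint_left]
          rintro w h3 (h4 | h4)
          · obtain ⟨m, hm0, hm, e1⟩ := h3
            have := hg.gi j _ _ hm (Nat.zero_le _) (e1.trans h4)
            omega
          · exact Set.disjoint_left.1 (hg.disj hjk le_rfl le_rfl) h3 h4
        · -- x12
          rintro u (h3 | ⟨m, hm0, hm, rfl⟩) v hv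
          · subst h3
            constructor
            · intro h4
              exact Or.inl ⟨rfl, hfSj v hv h4⟩
            · rintro (⟨_, h4⟩ | ⟨h4, _⟩)
              · rw [h4]
                exact hs3
              · exact absurd h4 (hfne i (n i) le_rfl)
          · obtain ⟨m', hm0', hm', rfl⟩ := hv
            rw [hg.cr i j hij m m' hm hm']
            constructor
            · rintro (⟨h4, h5⟩ | ⟨h4, h5⟩)
              · omega
              · exact Or.inr ⟨by rw [h4], by rw [h5]⟩
            · rintro (⟨h4, h5⟩ | ⟨h4, h5⟩)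
              · exact absurd h4.symm (hfne i m hm)
              · exact Or.inr ⟨hg.gi i _ _ hm le_rfl h4, hg.gi j _ _ hm' le_rfl h5⟩
        · -- x13
          rintro u (h3 | ⟨m, hm0, hm, rfl⟩) v (h4 | ⟨m', hm0', hm', rfl⟩)
          · subst h3
            subst h4
            exact ⟨fun _ => Or.inl ⟨rfl, rfl⟩, fun _ => hfj⟩
          · subst h3
            constructor
            · intro h5
              exact absurd h5 (hfk' m' hm')
            · rintro (⟨_, h5⟩ | ⟨h5, _⟩)
              · exact absurd h5 (hg.dj k j (Ne.symm hjk) m' 0 hm' (Nat.zero_le _))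
              · exact absurd h5 (hfne i (n i) le_rfl)
          · rw [h4, hg.cr i j hij m 0 hm (Nat.zero_le _)]
            constructor
            · rintro (⟨h5, _⟩ | ⟨_, h5⟩) <;> omega
            · rintro (⟨h5, _⟩ | ⟨_, h5⟩)
              · exact absurd h5.symm (hfne i m hm)
              · exact absurd h5 (hg.dj j k hjk 0 (n k) (Nat.zero_le _) le_rfl)
          · rw [hg.cr i k hik m m' hm hm']
            constructor
            · rintro (⟨h5, _⟩ | ⟨h5, h6⟩)
              · omega
              · exact Or.inr ⟨by rw [h5], by rw [h6]⟩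
            · rintro (⟨h5, _⟩ | ⟨h5, h6⟩)
              · exact absurd h5.symm (hfne i m hm)
              · exact Or.inr ⟨hg.gi i _ _ hm le_rfl h5, hg.gi k _ _ hm' le_rfl h6⟩
        · -- x23
          rintro _ ⟨m, hm0, hm, rfl⟩ v (h4 | ⟨m', hm0', hm', rfl⟩)
          · rw [h4, hg.ga j m 0 hm (Nat.zero_le _)]
            constructor
            · rintro (h5 | h5)
              · omega
              · exact Or.inl ⟨by rw [← h5], rfl⟩
            · rintro (⟨h5, _⟩ | ⟨_, h5⟩)
              · have := hg.gi j _ _ hm (by omega) h5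
                omega
              · exact absurd h5 (hg.dj j k hjk 0 (n k) (Nat.zero_le _) le_rfl)
          · rw [hg.cr j k hjk m m' hm hm']
            constructor
            · rintro (⟨h5, _⟩ | ⟨h5, h6⟩)
              · omega
              · exact Or.inr ⟨by rw [h5], by rw [h6]⟩
            · rintro (⟨_, h5⟩ | ⟨h5, h6⟩)
              · exact absurd h5 (hg.dj k j (Ne.symm hjk) m' 0 hm' (Nat.zero_le _))
              · exact Or.inr ⟨hg.gi j _ _ hm le_rfl h5, hg.gi k _ _ hm' le_rfl h6⟩
      · -- (2b)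
        have hE : Even ((n j - s1) + (n k - 0) + 1 + 1) := by
          have h1 := hSj.append hSk (hg.disj hjk le_rfl le_rfl) (hg.top hjk (Or.inl (by omega)))
          have h2 := h1.snoc (u := g j 0) ?_ ?_
          · refine hG _ _ _ f _ h2 (by omega) ?_ hs3 hfj ?_
            · rintro (h3 | h3 | h3)
              · exact hfne j 0 (Nat.zero_le _) h3
              · exact hfS j _ _ le_rfl h3
              · exact hfS k _ _ le_rfl h3
            · rintro w (h3 | h3 | h3) hadj
              · exact Or.inr h3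
              · exact Or.inl (hfSj w h3 hadj)
              · exact absurd hadj (hfSk w h3)
          · rintro (⟨m, _, hm, e1⟩ | ⟨m, _, hm, e1⟩)
            · have := hg.gi j _ _ hm (Nat.zero_le _) e1
              omega
            · exact hg.dj k j (Ne.symm hjk) m 0 hm (Nat.zero_le _) e1
          · rintro _ (⟨m, hm0, hm, rfl⟩ | ⟨m, _, hm, rfl⟩)
            · rw [hg.ga j 0 m (Nat.zero_le _) hm]
              constructor
              · intro h3
                omega
              · intro h3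
                exact absurd h3 (hg.dj j k hjk m 0 hm (Nat.zero_le _))
            · rw [hg.cr j k hjk 0 m (Nat.zero_le _) hm]
              constructor
              · rintro (⟨_, h3⟩ | ⟨h3, _⟩)
                · rw [h3]
                · omega
              · intro h3
                exact Or.inl ⟨rfl, hg.gi k _ _ hm (Nat.zero_le _) h3⟩
        have hF : Even ((r - 0) + (n k - 0) + 1 + (n j - s1) + 1) := by
          have h1 := (hg.seg i (Nat.zero_le r) hrN).rev.append hSk.rev
            (hg.disj hik hrN le_rfl) (hg.bot hik hrN le_rfl (Or.inl (by omega)))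
          have h2 := h1.append hSj.rev ?_ ?_
          · refine hG _ _ _ f _ h2 (by omega) ?_ ((hfi r le_rfl).2 rfl) hs3 ?_
            · rintro ((h3 | h3) | h3)
              · exact hfS i _ _ hrN h3
              · exact hfS k _ _ le_rfl h3
              · exact hfS j _ _ le_rfl h3
            · rintro w ((h3 | h3) | h3) hadj
              · obtain ⟨m, _, hm, rfl⟩ := h3
                left
                rw [(hfi m hm).1 hadj]
              · exact absurd hadj (hfSk w h3)
              · exact Or.inr (hfSj w h3 hadj)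
          · rw [Set.disjoint_left]
            rintro w (h3 | h3) h4
            · exact Set.disjoint_left.1 (hg.disj hij hrN le_rfl) h3 h4
            · exact Set.disjoint_left.1 (hg.disj (Ne.symm hjk) le_rfl le_rfl) h3 h4
          · rintro _ (⟨m, _, hm, rfl⟩ | ⟨m, _, hm, rfl⟩) _ ⟨m', hm0', hm', rfl⟩
            · rw [hg.cr i j hij m m' (by omega) hm']
              constructor
              · rintro (⟨_, h3⟩ | ⟨h3, _⟩) <;> omega
              · rintro ⟨h3, _⟩
                exact absurd h3 (hg.dj i k hik m (n k) (by omega) le_rfl)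
            · rw [hg.cr k j (Ne.symm hjk) m m' hm hm']
              constructor
              · rintro (⟨_, h3⟩ | ⟨h3, h4⟩)
                · omega
                · exact ⟨by rw [h3], by rw [h4]⟩
              · rintro ⟨h3, h4⟩
                exact Or.inr ⟨hg.gi k _ _ hm le_rfl h3, hg.gi j _ _ hm' le_rfl h4⟩
        obtain ⟨q1, hq1⟩ := hE
        obtain ⟨q2, hq2⟩ := hF
        omega

end Pool.Agent.H34.NCK
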